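import Pool.Agent.H.MP_a41846_al.G

namespace Pool.Agent.H.MP_bec853_al

open FreeGroup hiding map_mul map_inv map_one
open Pool.Agent.H.MP_1d2ce7_al Pool.Agent.H.MP_a41846_al

variable {α : Type} [DecidableEq α]

theorem turn2 {L : List (α × Bool)} (hc : IsCyclicallyReduced L) {P : Set (FreeGroup α)}
    (h : Cl (mk L) P) {y s : α × Bool} (fA : (hs {fl s} 1 ∩ Pᶜ).Finite)
    (fB : (hs {y} 1 ∩ P).Finite) {c1 c2 : List (α × Bool)} (e : L = c1 ++ y :: s :: c2) :
    False := by
  let Z : ℕ → List (α × Bool) := fun n => (List.replicate n L).flatten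
  have z1 : ∀ n, mk (Z n) = mk L ^ n := fun n => by rw [← pow_mk]
  have z2 : ∀ n, n ≤ (Z n).length := fun n => by
    simp only [Z, List.length_flatten, List.map_replicate, List.sum_replicate, smul_eq_mul]
    exact Nat.le_mul_of_pos_right _ (by simp [e])
  have r1 : ∀ n, IsReduced (Z n ++ c1 ++ [y]) := fun n => by
    refine sub (hc.flatten_replicate (n + 1)).isReduced (List.IsPrefix.isInfix ⟨s :: c2, ?_⟩)
    rw [List.replicate_add, List.flatten_append]
    simp [Z, ← e]
  have r2 : ∀ n, IsReduced (invRev (c2 ++ Z n) ++ [fl s]) := fun n => by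
    have : IsReduced ([s] ++ (c2 ++ Z n)) :=
      sub (hc.flatten_replicate (1 + n)).isReduced (List.IsSuffix.isInfix ⟨c1 ++ [y], by
        rw [List.replicate_add, List.flatten_append]
        conv_rhs => enter [1]; rw [e]
        simp [Z]⟩)
    have := red_inv this
    rw [invRev_append] at this
    exact this
  have cn : ∀ {M : List (α × Bool)} {t}, IsReduced (M ++ [t]) → mk (M ++ [t]) ∈ hs {t} 1 :=
    fun r => hs1.2 (by
      show _ <:+ _
      rw [inv_one, mul_one, tw r]; exact ⟨_, rfl⟩)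
  obtain ⟨n, hn⟩ := esc fA (fun n => mk (invRev (c2 ++ Z n) ++ [fl s]))
    (fun n => cn (r2 n)) (fun n => by rw [tw (r2 n)]; have := z2 n; simp; omega)
  obtain ⟨m, hm⟩ := esc fB (fun n => mk (Z n ++ c1 ++ [y])) (fun n => cn (r1 n))
    (fun n => by rw [tw (r1 n)]; have := z2 n; simp; omega)
  apply hm
  have key : mk (Z m ++ c1 ++ [y]) = mk L ^ (m + 1 + n) * mk (invRev (c2 ++ Z n) ++ [fl s]) := by
    have ew : mk L ^ 1 = mk c1 * (mk [y] * mk [s]) * mk c2 := by
      rw [pow_one, mul_mk, mul_mk, mul_mk, e]; simp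
    simp only [← mul_mk, ← inv_mk, z1, pow_add, mk_fl, ew]
    group
  rw [key]
  exact h.pow (not_not.1 hn) _

def R (A B : Finset (α × Bool)) (y s : α × Bool) : Prop := s ≠ fl y ∧ ¬ (y ∈ B ∧ fl s ∈ A)

def Cf [Fintype α] (A B : Finset (α × Bool)) : Prop :=
  A.Nonempty ∧ B.Nonempty ∧ Disjoint A B ∧ 2 * Fintype.card α ≤ A.card + B.card + 1

theorem conf [Fintype α] {L : List (α × Bool)} (hc : IsCyclicallyReduced L) (h : Q (mk L)) :
    ∃ A B, Cf A B ∧ L.IsChain (R A B) := by
  classical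
  obtain ⟨P, h, hn⟩ := qcone h
  obtain ⟨D, hR⟩ := far' h.1
  let N : ℕ → Prop := fun n => ∃ W : List (α × Bool), W.length = n ∧ NM P (cone W)
  have n0 : N 0 := ⟨[], rfl, by simpa [cone] using hn⟩
  obtain ⟨W, w1, w2⟩ : N (Nat.findGreatest N D) := Nat.findGreatest_spec (Nat.zero_le D) n0
  have mx : ∀ t, ¬ NM P (cone (t :: W)) := fun t a => by
    have := Nat.le_findGreatest (P := N) (hR _ a) ⟨t :: W, rfl, a⟩
    simp only [List.length_cons] at this
    omega
  have r : IsReduced W := by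
    obtain ⟨g, g1, -⟩ := w2.1.nonempty
    exact sub isReduced_toWord (List.IsSuffix.isInfix g1)
  have ch : ∀ X : Set (FreeGroup α), (cone W ∩ X).Infinite →
      ∃ t, IsReduced (t :: W) ∧ (cone (t :: W) ∩ X).Infinite := by
    intro X hQ
    by_contra hc
    push Not at hc
    refine hQ (((Set.finite_iUnion (ι := {t // IsReduced (t :: W)}) fun t => hc t.1 t.2).insert
      (mk W)).subset ?_)
    rintro g ⟨⟨V, e⟩, g2⟩
    rcases V.eq_nil_or_concat with rfl | ⟨V', t, rfl⟩
    · left; rw [← mk_toWord (x := g), ← e]; rfl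
    · have : t :: W <:+ g.toWord := ⟨V', by rw [← e]; simp⟩
      exact Or.inr (Set.mem_iUnion.2 ⟨⟨t, sub isReduced_toWord this.isInfix⟩, this, g2⟩)
  let S := Finset.univ.filter fun t => IsReduced (t :: W)
  have tr : ∀ (t) (X : Set (FreeGroup α)), IsReduced (t :: W) → (cone (t :: W) ∩ X).Finite →
      (hs {t} 1 ∩ Equiv.mulRight (mk W) ⁻¹' X).Finite := fun t X a b => by
    have e := hs_cone (t := t) (u := mk W) (by rwa [tw r])
    rw [tw r] at e
    rw [hs_tr _ 1 (mk W), inv_one, one_mul, e]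
    exact (b.preimage (Equiv.mulRight (mk W)).injective.injOn :)
  refine ⟨S.filter fun t => (cone (t :: W) ∩ Pᶜ).Finite,
    S.filter fun t => ¬ (cone (t :: W) ∩ Pᶜ).Finite, ⟨?_, ?_, Finset.disjoint_filter_filter_not _ _ _,
    ?_⟩, List.isChain_iff_forall_rel_of_append_cons_cons.2 fun y s c1 c2 e => ⟨?_, ?_⟩⟩
  · obtain ⟨t, a, b⟩ := ch _ w2.1
    exact ⟨t, by simpa [S, a] using Set.not_infinite.1 fun c => mx t ⟨b, c⟩⟩
  · obtain ⟨t, a, b⟩ := ch _ w2.2
    exact ⟨t, by simpa [S, a] using b⟩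
  · rw [Finset.card_filter_add_card_filter_not]
    have e : 2 * Fintype.card α = (Finset.univ : Finset (α × Bool)).card := by simp [mul_comm]
    rw [e]
    rcases W with _ | ⟨s, V⟩
    · simp [S]
    · refine le_trans (Finset.card_le_card fun t _ => ?_) (Finset.card_insert_le (fl s) S)
      by_cases c : t = fl s
      · simp [c]
      · exact Finset.mem_insert_of_mem (Finset.mem_filter.2 ⟨Finset.mem_univ _, red_cons r c⟩)
  · rintro rfl
    have : IsReduced [y, fl y] := sub hc.isReduced ⟨c1, c2, by simp [e]⟩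
    simp [fl] at this
  · simp only [S, Finset.mem_filter, Finset.mem_univ, true_and]
    rintro ⟨⟨a, b⟩, c, d⟩
    exact turn2 hc (h.tr (mk W)) (tr _ _ c d) (tr _ _ a (Set.not_infinite.1 fun q => mx y ⟨q, b⟩)) e

open Classical in
noncomputable def chn {β : Type} [Fintype β] (T : β → β → Prop) : ℕ → β → Finset (List β)
  | 0, _ => {[]}
  | n + 1, y => (Finset.univ.filter (T y)).biUnion fun s => (chn T n s).image (s :: ·)

theorem mem_chn {β : Type} [Fintype β] (T : β → β → Prop) : ∀ (L : List β) (y : β),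
    (y :: L).IsChain T → L ∈ chn T L.length y
  | [], _, _ => by simp [chn]
  | s :: L, y, h => by
    have := List.isChain_cons_cons.1 h
    simp only [List.length_cons, chn, Finset.mem_biUnion, Finset.mem_filter, Finset.mem_image]
    exact ⟨s, ⟨Finset.mem_univ _, this.1⟩, L, mem_chn T L s this.2, rfl⟩

open Classical in
theorem card_chn {β : Type} [Fintype β] (T : β → β → Prop) (v : β → ℝ) {l : ℝ} (hl : 0 ≤ l)
    (h1 : ∀ y, 1 ≤ v y) (h2 : ∀ y, ∑ s ∈ Finset.univ.filter (T y), v s ≤ l * v y) :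
    ∀ n y, ((chn T n y).card : ℝ) ≤ l ^ n * v y
  | 0, y => by simpa [chn] using h1 y
  | n + 1, y => by
    rw [chn]
    refine le_trans (Nat.cast_le.2 Finset.card_biUnion_le) ?_
    push_cast
    refine le_trans (Finset.sum_le_sum fun s _ => (Nat.cast_le.2 Finset.card_image_le).trans
      (card_chn T v hl h1 h2 n s)) ?_
    rw [← Finset.mul_sum, pow_succ, mul_assoc]
    exact mul_le_mul_of_nonneg_left (h2 y) (pow_nonneg hl _)

theorem eps {r a b : ℕ} (hr : 3 ≤ r) (ha : 1 ≤ a) (hb : a ≤ b) (h : 2 * r ≤ a + b + 1) :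
    ∃ e : ℝ, 0 ≤ e ∧ e ≤ 1 ∧
      2 * r - 1 - a + e * (2 * r - b) ≤ 2 * r - 2 + 1 / (r - 1) ∧
      2 * r - 1 + e * (2 * r - b) ≤ (2 * r - 2 + 1 / (r - 1)) * (1 + e) := by
  have r3 : (3 : ℝ) ≤ r := by exact_mod_cast hr
  have hrb : (r : ℝ) ≤ b := by exact_mod_cast (by omega : r ≤ b)
  have h' : (2 * r : ℝ) ≤ a + b + 1 := by exact_mod_cast h
  have d1 : (1 / (r - 1) : ℝ) * (r - 1) = 1 := one_div_mul_cancel (by linarith)
  have d0 : (0 : ℝ) < 1 / (r - 1) := one_div_pos.2 (by linarith)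
  generalize (1 / (r - 1) : ℝ) = d at *
  rcases ha.eq_or_lt with rfl | ha
  · push_cast at *
    exact ⟨d / 2, by linarith, by nlinarith, by nlinarith, by nlinarith⟩
  · have a2 : (2 : ℝ) ≤ a := by exact_mod_cast ha
    have : 4 ≤ r - 1 + 4 * d := by nlinarith [mul_nonneg d0.le (sq_nonneg ((r : ℝ) - 3))]
    exact ⟨1 / 3, by norm_num, by norm_num, by linarith, by linarith⟩

def Cov {β : Type} (p : List β → Prop) (C l : ℝ) : Prop :=
  ∀ n, ∃ F : Finset (List β), (F.card : ℝ) ≤ C * l ^ n ∧ ∀ L, L.length = n → p L → L ∈ F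

theorem cnt1 {r : ℕ} (hr : 3 ≤ r) {A B : Finset (Fin r × Bool)} (h : Cf A B)
    (hb : A.card ≤ B.card) :
    Cov (List.IsChain (R A B)) (4 * r) (2 * r - 2 + 1 / (r - 1)) := by
  classical
  obtain ⟨h1, -, h3, h4⟩ := h
  rw [Fintype.card_fin] at h4
  obtain ⟨e, e0, e1, e2, e3⟩ := eps hr h1.card_pos hb h4
  have r3 : (3 : ℝ) ≤ r := by exact_mod_cast hr
  have d0 : (0 : ℝ) < 1 / (r - 1) := one_div_pos.2 (by linarith)
  generalize hl : (2 * r - 2 + 1 / (r - 1) : ℝ) = l at *
  have l1 : 1 ≤ l := by linarith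
  have cu : ((Finset.univ : Finset (Fin r × Bool)).card : ℝ) = 2 * r := by simp [mul_comm]
  let v : Fin r × Bool → ℝ := fun s => 1 + if s ∈ B then 0 else e
  have sv : ∀ T : Finset (Fin r × Bool), ∑ s ∈ T, v s ≤ T.card + e * (2 * r - B.card) := by
    intro T
    rw [Finset.sum_add_distrib, Finset.sum_const, nsmul_eq_mul, mul_one]
    refine add_le_add le_rfl (le_trans (Finset.sum_le_sum_of_subset_of_nonneg (Finset.subset_univ T)
      fun s _ _ => by split_ifs <;> linarith) (le_of_eq ?_))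
    rw [← Finset.sum_add_sum_compl B, Finset.sum_congr rfl fun s a => if_pos a,
      Finset.sum_congr rfl fun s a => if_neg (Finset.mem_compl.1 a)]
    have := Finset.card_add_card_compl B
    rw [← Finset.card_univ] at this
    have : (B.card : ℝ) + Bᶜ.card = 2 * r := by rw [← cu]; exact_mod_cast this
    simp only [Finset.sum_const, nsmul_eq_mul]
    linear_combination e * this
  have ct : ∀ T U : Finset (Fin r × Bool), (∀ s ∈ T, fl s ∉ U) → (T.card : ℝ) ≤ 2 * r - U.card := by
    intro T U a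
    have := Finset.card_le_card_of_injOn (s := T) (t := Uᶜ) fl (fun s b => by simpa using a s b)
      fun s _ t _ e => by rw [← fl_fl s, e, fl_fl]
    have h2 := Finset.card_add_card_compl U
    rw [← Finset.card_univ] at h2
    have h2 : (U.card : ℝ) + Uᶜ.card = 2 * r := by rw [← cu]; exact_mod_cast h2
    have : (T.card : ℝ) ≤ Uᶜ.card := by exact_mod_cast this
    linarith
  have key := card_chn (R A B) v (by linarith : 0 ≤ l)
    (fun y => by simp only [v]; split_ifs <;> linarith) fun y => by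
      refine le_trans (sv _) ?_
      by_cases c : y ∈ B
      · have := ct (Finset.univ.filter (R A B y)) (insert y A) fun s a b => by
          obtain ⟨p, q⟩ := (Finset.mem_filter.1 a).2
          exact (Finset.mem_insert.1 b).elim (fun b => p (by rw [← b, fl_fl])) fun b => q ⟨c, b⟩
        rw [Finset.card_insert_of_notMem (Finset.disjoint_right.1 h3 c)] at this
        simp only [v, if_pos c]
        push_cast at this
        linarith
      · have := ct (Finset.univ.filter (R A B y)) {y} fun s a b =>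
          (Finset.mem_filter.1 a).2.1 (by rw [← Finset.mem_singleton.1 b, fl_fl])
        simp only [v, if_neg c]
        simp only [Finset.card_singleton, Nat.cast_one] at this
        linarith
  rintro (_ | n)
  · exact ⟨{[]}, by simp; linarith, fun L a _ => by simpa using a⟩
  refine ⟨Finset.univ.biUnion fun y => (chn (R A B) n y).image (y :: ·), ?_, ?_⟩
  · refine le_trans (Nat.cast_le.2 Finset.card_biUnion_le) ?_
    push_cast
    refine le_trans (Finset.sum_le_sum (g := fun _ => l ^ (n + 1) * 2) fun s _ =>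
      (Nat.cast_le.2 Finset.card_image_le).trans ((key n s).trans (mul_le_mul
        (pow_le_pow_right₀ l1 (Nat.le_succ n)) (by simp only [v]; split_ifs <;> linarith)
        (by simp only [v]; split_ifs <;> linarith) (by positivity)))) (le_of_eq ?_)
    rw [Finset.sum_const, nsmul_eq_mul, cu]; ring
  · rintro (_ | ⟨y, L⟩) a b
    · simp at a
    · obtain rfl : L.length = n := by simpa using a
      exact Finset.mem_biUnion.2 ⟨y, Finset.mem_univ _, Finset.mem_image.2
        ⟨L, mem_chn _ L y b, rfl⟩⟩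

theorem cnt2 {r : ℕ} (hr : 3 ≤ r) {A B : Finset (Fin r × Bool)} (h : Cf A B) :
    Cov (List.IsChain (R A B)) (4 * r) (2 * r - 2 + 1 / (r - 1)) := by
  rcases le_total A.card B.card with c | c
  · exact cnt1 hr h c
  intro n
  obtain ⟨F, f1, f2⟩ := cnt1 hr (A := B) (B := A) ⟨h.2.1, h.1, h.2.2.1.symm, by
    have := h.2.2.2; omega⟩ c n
  refine ⟨F.image invRev, (Nat.cast_le.2 Finset.card_image_le).trans f1, fun L a b =>
    Finset.mem_image.2 ⟨invRev L, f2 _ (by simpa) ?_, invRev_invRev⟩⟩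
  rw [invRev, List.isChain_reverse, List.isChain_map]
  refine b.imp fun y s p => ⟨fun q => p.1 ?_, fun q => p.2 ⟨?_, q.1⟩⟩
  · change fl y = fl (fl s) at q
    rw [q, fl_fl]
  · have : fl (fl y) ∈ B := q.2
    rwa [fl_fl] at this

theorem cnt3 {r : ℕ} (hr : 3 ≤ r) : ∃ C : ℝ, 0 ≤ C ∧
    Cov (fun L : List (Fin r × Bool) => IsCyclicallyReduced L ∧ Q (mk L)) C
      (2 * r - 2 + 1 / (r - 1)) := by
  classical
  let I := {p : Finset (Fin r × Bool) × Finset (Fin r × Bool) // Cf p.1 p.2}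
  refine ⟨Fintype.card I * (4 * r), by positivity, fun n => ?_⟩
  choose F f1 f2 using fun p : I => cnt2 hr p.2 n
  refine ⟨Finset.univ.biUnion F, le_trans (Nat.cast_le.2 Finset.card_biUnion_le) ?_, ?_⟩
  · push_cast
    refine le_trans (Finset.sum_le_sum fun p _ => f1 p) (le_of_eq ?_)
    rw [Finset.sum_const, nsmul_eq_mul, Finset.card_univ]; ring
  · rintro L a ⟨b, c⟩
    obtain ⟨A, B, p, q⟩ := conf b c
    exact Finset.mem_biUnion.2 ⟨⟨(A, B), p⟩, Finset.mem_univ _, f2 _ L a q⟩

theorem cnt4 {r : ℕ} (hr : 3 ≤ r) : ∃ C : ℝ,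
    Cov (fun L : List (Fin r × Bool) => IsReduced L ∧ Q (mk L)) C (2 * r - 2 + 1 / (r - 1)) := by
  classical
  obtain ⟨C, c0, h⟩ := cnt3 hr
  have r3 : (3 : ℝ) ≤ r := by exact_mod_cast hr
  have d0 : (0 : ℝ) < 1 / (r - 1) := one_div_pos.2 (by linarith)
  have l2 : 4 * r ≤ (2 * r - 2 + 1 / (r - 1) : ℝ) ^ 2 := by nlinarith
  have l0 : 0 ≤ (2 * r - 2 + 1 / (r - 1) : ℝ) := by linarith
  generalize (2 * r - 2 + 1 / (r - 1) : ℝ) = l at *
  refine ⟨2 * C, fun n => ?_⟩
  induction n using Nat.strong_induction_on with | _ n ih => ?_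
  obtain ⟨F, f1, f2⟩ := h n
  have sm : n < 2 → ∃ F : Finset (List (Fin r × Bool)), (F.card : ℝ) ≤ 2 * C * l ^ n ∧
      ∀ L : List (Fin r × Bool), L.length = n → IsReduced L ∧ Q (mk L) → L ∈ F := fun a =>
    ⟨F, by nlinarith [mul_nonneg c0 (pow_nonneg l0 n)], fun L b c => f2 L b ⟨by
      rcases L with _ | ⟨s, _ | ⟨t, L⟩⟩
      · simp
      · simp
      · simp at b; omega, c.2⟩⟩
  rcases n with _ | _ | n
  · exact sm (by omega)
  · exact sm (by omega)
  obtain ⟨G, g1, g2⟩ := ih n (by omega)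
  refine ⟨F ∪ Finset.univ.biUnion fun t => G.image fun M => t :: M ++ [fl t], ?_, ?_⟩
  · refine le_trans (Nat.cast_le.2 ((Finset.card_union_le _ _).trans
      (Nat.add_le_add_left Finset.card_biUnion_le _))) ?_
    push_cast
    have := Finset.sum_le_sum (s := Finset.univ) fun (t : Fin r × Bool) _ =>
      (Nat.cast_le.2 (Finset.card_image_le (s := G) (f := fun M => t :: M ++ [fl t]))).trans g1
    rw [Finset.sum_const, nsmul_eq_mul, Finset.card_univ] at this
    simp only [Fintype.card_prod, Fintype.card_fin, Fintype.card_bool] at this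
    push_cast at this
    have e : l ^ (n + 1 + 1) = l ^ n * l ^ 2 := by ring
    rw [e] at f1 ⊢
    nlinarith [mul_le_mul_of_nonneg_left l2 (mul_nonneg c0 (pow_nonneg l0 n))]
  · rintro L a ⟨b, c⟩
    by_cases d : IsCyclicallyReduced L
    · exact Finset.mem_union_left _ (f2 L a ⟨d, c⟩)
    obtain ⟨t, L', rfl⟩ := List.exists_cons_of_ne_nil (l := L) (by rintro rfl; simp at a)
    obtain ⟨M, s, rfl⟩ := L'.eq_nil_or_concat.resolve_left (by rintro rfl; simp at a)
    rw [List.concat_eq_append] at *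
    obtain rfl : s = fl t := by
      by_contra q
      exact d (isCyclicallyReduced_cons_append_iff.2 ⟨b, fun p => by
        rw [(fst_eq p).resolve_right q]⟩)
    refine Finset.mem_union_right _ (Finset.mem_biUnion.2 ⟨t, Finset.mem_univ _,
      Finset.mem_image.2 ⟨M, g2 M (by simpa using a) ⟨sub b ⟨[t], [fl t], by simp⟩,
        Q.aut (MulAut.conj (mk [t])) ?_⟩, rfl⟩⟩)
    rwa [MulAut.conj_apply, ← mk_fl, mul_mk, mul_mk]

end Pool.Agent.H.MP_bec853_al
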